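import Pool.Agent.LH5.Zn

/-!
# Small carriers outside the zones

If for any two vertices `v`, `w` the carrier of `w` has at most two elements or the carrier of `v` has at
most two elements outside the carrier of `w`, then the multiplication by `λ` is injective in all degrees
below the middle.
-/

set_option autoImplicit false

open Finset

namespace Pool.Agent.LH5

open Pool.Agent.LocH Pool.Agent.LH4

variable {X Ω : Type} [Fintype X] [DecidableEq X] [Fintype Ω] [DecidableEq Ω] {S : Sub X Ω}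

/-- Vertices which contain at most two elements of `B`. -/
theorem two_serve {s : X →₀ ℕ} {B : Finset Ω} (h : ∀ v ∈ s.support, (S.car v ∩ B).card ≤ 2)
    (hB : B ⊆ S.cr s.support) : B.card ≤ 2 * S.dgC B s := by
  classical
  set F := s.support.filter fun v => ¬ Disjoint (S.car v) B with hF
  have h1 : B ⊆ F.biUnion fun v => S.car v ∩ B := by
    intro c hc
    have h2 := hB hc
    unfold Sub.cr at h2
    rw [Finset.mem_biUnion] at h2 ⊢
    obtain ⟨v, hv, hcv⟩ := h2
    exact ⟨v, Finset.mem_filter.2 ⟨hv, Finset.not_disjoint_iff.2 ⟨c, hcv, hc⟩⟩,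
      Finset.mem_inter.2 ⟨hcv, hc⟩⟩
  have h2 : B.card ≤ ∑ v ∈ F, 2 :=
    (Finset.card_le_card h1).trans (Finset.card_biUnion_le.trans
      (Finset.sum_le_sum fun v hv => h v (Finset.mem_filter.1 hv).1))
  have h3 : ∑ v ∈ F, 2 ≤ 2 * S.dgC B s := by
    unfold Sub.dgC
    rw [Finset.mul_sum]
    refine (Finset.sum_le_sum (g := fun v => 2 * s v) fun v hv => ?_).trans
      (Finset.sum_le_sum_of_subset fun v hv => ?_)
    · have h4 := Finsupp.mem_support_iff.1 (Finset.mem_filter.1 hv).1
      omega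
    · exact Finset.mem_filter.2 ⟨Finset.mem_univ _, (Finset.mem_filter.1 hv).2⟩
  exact h2.trans h3

theorem cov_of_serve {U : Finset Ω} {N : X →₀ ℕ} (h : ∀ B ⊆ U, B.card ≤ 2 * S.dgC B N) :
    U ⊆ S.cr N.support := by
  intro c hc
  by_contra h1
  have h2 := h {c} (Finset.singleton_subset_iff.2 hc)
  rw [dgC_zero fun v hv => ?_, Finset.card_singleton] at h2
  · omega
  · rw [Finset.disjoint_singleton_right]
    intro h3
    exact h1 (Finset.mem_biUnion.2 ⟨v, hv, h3⟩)

theorem supp_add_eq (τ s : X →₀ ℕ) : (τ + s).support = τ.support ∪ s.support := by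
  ext v
  rw [Finset.mem_union, Finsupp.mem_support_iff, Finsupp.mem_support_iff,
    Finsupp.mem_support_iff, Finsupp.add_apply]
  omega

theorem cr_add (τ s : X →₀ ℕ) : S.cr (τ + s).support = S.cr τ.support ∪ S.cr s.support := by
  rw [supp_add_eq]
  unfold Sub.cr
  rw [Finset.union_biUnion]

theorem cr_single_add (v : X) (s : X →₀ ℕ) :
    S.cr (Finsupp.single v 1 + s).support = S.car v ∪ S.cr s.support := by
  rw [supp_single_add, cr_insert]

/-- The product of `u` and a monomial which covers all of `U` but one point of `u`. -/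
theorem serve_insert {U : Finset Ω} {c : Ω} {u : X} {s : X →₀ ℕ} (hc : c ∈ S.car u)
    (h : ∀ B ⊆ U.erase c, B.card ≤ 2 * S.dgC B s) {B : Finset Ω} (hB : B ⊆ U) :
    B.card ≤ 2 * S.dgC B (Finsupp.single u 1 + s) ∧ B.card ≤ 2 * S.dgC B s + 1 := by
  by_cases hcB : c ∈ B
  · have h1 := h (B.erase c) (Finset.erase_subset_erase c hB)
    have h2 := Finset.card_erase_add_one hcB
    have h3 := dgC_mono (S := S) (Finset.erase_subset c B) s
    have h4 : S.dgC B (Finsupp.single u 1) = 1 :=
      dgC_single (Finset.not_disjoint_iff.2 ⟨c, hc, hcB⟩)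
    rw [dgC_add, h4]
    omega
  · have h1 := h B (Finset.subset_erase.2 ⟨hB, hcB⟩)
    rw [dgC_add]
    omega

section zone

variable {A Q : Finset Ω} {i e : ℕ} {g : S.T} {τ : X →₀ ℕ}

/-- The interior monomials with one factor which meets the zone. -/
theorem flux_zero (hK : Kx S A i g e) (hz : Zone S A Q e τ) (hQ : Q ⊆ S.cr τ.support) {u : X}
    {s : X →₀ ℕ} (hu : ¬ Disjoint (S.car u) Q) (hd : τ.degree + s.degree + 1 + i = A.card)
    (h1 : ∀ B ⊆ A \ Q, B.card ≤ 2 * S.dgC B (Finsupp.single u 1 + s))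
    (h2 : ∀ B ⊆ A \ Q, B.card ≤ 2 * S.dgC B s + 1) :
    tt S A g τ (S.mo (Finsupp.single u 1 + s)) = 0 := by
  by_cases h3 : (τ + (Finsupp.single u 1 + s)).support ∈ S.fcs A
  · rw [tt_mo]
    refine hK _ ?_ h3 ?_ (hz.flux hu h1 h2)
    · rw [map_add, deg_single_add]
      omega
    · rw [cr_add]
      intro c hc
      by_cases h4 : c ∈ Q
      · exact Finset.mem_union_left _ (hQ h4)
      · exact Finset.mem_union_right _ (cov_of_serve h1 (Finset.mem_sdiff.2 ⟨hc, h4⟩))
  · rw [tt_mo]
    exact S.Tr_I (S.mul_I (mo_I h3) g)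

/-- The zones outside of which there are only small carriers. -/
theorem small_zone (hT : S.Top S.K) (hg : Ker S A i g) (hi : 2 * i < A.card) (hK : Kx S A i g e)
    (hz : Zone S A Q e τ) (hQ : Q ⊆ S.cr τ.support) {N : X →₀ ℕ}
    (hd : τ.degree + N.degree + i = A.card) (hN : N.support ∈ S.fcs (A \ Q))
    (hNs : ∀ B ⊆ A \ Q, B.card ≤ 2 * S.dgC B N)
    (hsm : ∀ v, S.car v ⊆ A \ Q → (S.car v).card ≤ 2)
    (hTJ : ∀ j, 2 * j < (A \ Q).card → TJ S (A \ Q) j) :
    S.Tr A (g * S.mo (τ + N)) = 0 := by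
  have hUA : A \ Q ⊆ A := Finset.sdiff_subset
  have hQc := hz.deg
  have hUc : (A \ Q).card + Q.card = A.card := Finset.card_sdiff_add_card_eq_card hz.sub
  have hsv : ∀ {s : X →₀ ℕ}, s.support ∈ S.fcs (A \ Q) → ∀ {B : Finset Ω}, B ⊆ S.cr s.support →
      B.card ≤ 2 * S.dgC B s := by
    intro s hs B hB
    refine two_serve (fun v hv => ?_) hB
    refine (Finset.card_le_card Finset.inter_subset_left).trans (hsm v ?_)
    exact (Finset.subset_biUnion_of_mem S.car hv).trans (mem_fcs'.1 hs).2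
  have hface : ∀ s t : X →₀ ℕ, t.degree = s.degree + 1 → t.support ∉ S.fcs A →
      tt S A g τ (S.mo t) = 0 := fun _ t _ h => tt_face A g τ h
  have hKil : Kil S (A \ Q) N.degree (rs S (A \ Q) (tt S A g τ)) := by
    refine ⟨fun y hy _ => rs_I _ hy, fun c hc k hk y hy hyk => ?_⟩
    refine form_mul_zero _ fun s hs => ?_
    have hsk := deg_of_H hyk hs
    by_cases h1 : s.support ∈ S.fcs (A \ Q)
    · have h2 : (A \ Q).erase c ⊆ S.cr s.support := S.mem_J.1 hy s hs h1
      refine rs_th (hface s) (tt_th hT hg (by omega) (hUA hc)) h1 fun v hv hvU h3 => ?_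
      have h4 : ∀ B ⊆ A \ Q, B.card ≤ 2 * S.dgC B (Finsupp.single v 1 + s) ∧
          B.card ≤ 2 * S.dgC B s + 1 := fun B hB =>
        serve_insert hv (fun B' hB' => hsv h1 (hB'.trans h2)) hB
      exact flux_zero hK hz hQ (meet_of hvU h3) (by omega) (fun B hB => (h4 B hB).1)
        fun B hB => (h4 B hB).2
    · exact rs_I _ (S.mul_I (mo_I h1) _)
  have hres : rs S (A \ Q) (tt S A g τ) (S.mo N) = S.Tr A (g * S.mo (τ + N)) := by
    rw [rs_mo_eq fun h => absurd hN h, tt_mo]
  rw [← hres]
  have hNJ : S.mo N ∈ S.J (A \ Q) (A \ Q) := mo_J fun _ => cov_of_serve hNs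
  have hNH := mo_H (S := S) N
  rcases Nat.lt_or_ge (A \ Q).card N.degree with h6 | h6
  · exact F_zero hT hKil hNJ hNH (H_le_top hT h6 hNH)
  rcases Nat.eq_zero_or_pos N.degree with h7 | h7
  · exfalso
    have h8 : N = 0 := (Finsupp.degree_eq_zero_iff _).1 h7
    have h9 := cov_of_serve hNs
    rw [h8, Finsupp.support_zero] at h9
    have h10 : S.cr (∅ : Finset X) = ∅ := by
      unfold Sub.cr
      exact Finset.biUnion_empty
    rw [h10] at h9
    have h11 := Finset.card_le_card h9
    rw [Finset.card_empty] at h11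
    omega
  obtain ⟨n, hn⟩ : ∃ n, N.degree = n + 1 := ⟨N.degree - 1, by omega⟩
  obtain ⟨j, hj⟩ : ∃ j, n + 1 + j = (A \ Q).card := ⟨(A \ Q).card - (n + 1), by omega⟩
  rw [hn] at hKil hNH
  refine rep_zero hT hj (hTJ j (by omega)) hKil (fun y hy hyn => form_mul_zero _ fun s hs => ?_)
    hNJ hNH
  have hsk := deg_of_H hyn hs
  by_cases h1 : s.support ∈ S.fcs (A \ Q)
  · have h2 : A \ Q ⊆ S.cr s.support := S.mem_J.1 hy s hs h1
    refine rs_lam hUA (hface s) (tt_lam hg (by omega) fun _ => ?_) h1 fun v hvU h3 => ?_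
    · rw [cr_add]
      intro c hc
      by_cases h4 : c ∈ Q
      · exact Finset.mem_union_left _ (hQ h4)
      · exact Finset.mem_union_right _ (h2 (Finset.mem_sdiff.2 ⟨hc, h4⟩))
    · have h4 : ∀ B ⊆ A \ Q, B.card ≤ 2 * S.dgC B s := fun B hB => hsv h1 (hB.trans h2)
      refine flux_zero hK hz hQ (meet_of hvU h3) (by omega) (fun B hB => ?_) fun B hB => ?_
      · rw [dgC_add]
        have := h4 B hB
        omega
      · have := h4 B hB
        omega
  · exact rs_I _ (S.mul_I (mo_I h1) _)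

end zone

/-- The pieces of an interior monomial with a zone. -/
theorem zone_data {A Q : Finset Ω} {e : ℕ} {τ N : X →₀ ℕ} (hz : Zone S A Q e τ)
    (hn : (τ + N).support ∈ S.fcs A) (hcov : A ⊆ S.cr (τ + N).support)
    (hNd : ∀ v ∈ N.support, Disjoint (S.car v) Q) :
    Q ⊆ S.cr τ.support ∧ N.support ∈ S.fcs (A \ Q) ∧ ∀ v ∈ τ.support, S.car v ⊆ A := by
  have h1 := mem_fcs'.1 hn
  rw [cr_add] at hcov
  rw [cr_add, Finset.union_subset_iff] at h1
  refine ⟨fun c hc => ?_, mem_fcs'.2 ⟨S.down _ h1.1 _ ?_, ?_⟩, fun v hv => ?_⟩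
  · rcases Finset.mem_union.1 (hcov (hz.sub hc)) with h2 | h2
    · exact h2
    · obtain ⟨v, hv, hcv⟩ := Finset.mem_biUnion.1 h2
      exact absurd hc (Finset.disjoint_left.1 (hNd v hv) hcv)
  · rw [supp_add_eq]
    exact Finset.subset_union_right
  · refine Finset.biUnion_subset.2 fun v hv => Finset.subset_sdiff.2 ⟨?_, hNd v hv⟩
    exact (Finset.subset_biUnion_of_mem S.car hv).trans h1.2.2
  · exact (Finset.subset_biUnion_of_mem S.car hv).trans h1.2.1

/-- Some factor contains three points of the zone. -/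
theorem exists_three {A Q : Finset Ω} {e : ℕ} {τ : X →₀ ℕ} (hz : Zone S A Q e τ)
    (hQ : Q ⊆ S.cr τ.support) : ∃ v ∈ τ.support, 3 ≤ (S.car v ∩ Q).card := by
  by_contra h
  push Not at h
  have h1 := two_serve (fun v hv => Nat.lt_succ_iff.1 (h v hv)) hQ
  have h2 := hz.card
  omega

/-- Theorem A. -/
theorem tj_small (hT : S.Top S.K) (n : ℕ) : ∀ A : Finset Ω, A.card = n →
    (∀ v w, S.car v ⊆ A → S.car w ⊆ A → (S.car w).card ≤ 2 ∨ (S.car v \ S.car w).card ≤ 2) →
    ∀ i, 2 * i < A.card → TJ S A i := by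
  induction n using Nat.strong_induction_on with
  | _ n ih =>
    intro A hA h i hi
    refine tj_of (by omega) fun g hg => ?_
    have key : ∀ e, Kx S A i g e := by
      intro e
      induction e with
      | zero => exact kx_zero hi hg
      | succ e ihe =>
        intro m hm hmf hmc hE
        by_cases hE' : Ex S A e m
        · exact ihe m hm hmf hmc hE'
        · obtain ⟨Q, τ, N, hz, rfl, hNd, hNs⟩ := exists_zone hE hE'
          obtain ⟨hQ, hN, hτ⟩ := zone_data hz hmf hmc hNd
          obtain ⟨v, hv, hv3⟩ := exists_three hz hQ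
          have hUc : (A \ Q).card + Q.card = A.card := Finset.card_sdiff_add_card_eq_card hz.sub
          have hQc := hz.card
          have hUA : A \ Q ⊆ A := Finset.sdiff_subset
          refine small_zone hT hg hi ihe hz hQ ?_ hN hNs (fun w hw => ?_) ?_
          · rw [map_add] at hm
            omega
          · refine (h v w (hτ v hv) (hw.trans hUA)).resolve_right fun h1 => ?_
            have h2 : S.car v ∩ Q ⊆ S.car v \ S.car w := by
              intro c hc
              obtain ⟨h3, h4⟩ := Finset.mem_inter.1 hc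
              exact Finset.mem_sdiff.2 ⟨h3, fun h5 => (Finset.mem_sdiff.1 (hw h5)).2 h4⟩
            have := Finset.card_le_card h2
            omega
          · intro j hj
            exact ih (A \ Q).card (by omega) (A \ Q) rfl
              (fun v w hv hw => h v w (hv.trans hUA) (hw.trans hUA)) j hj
    exact key A.card

end Pool.Agent.LH5
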