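import Pool.Agent.LH5.Zf
import Pool.Agent.LH4.P5
import Pool.Agent.LH4.StF

/-!
# The square functional of a zone with one factor
-/

set_option autoImplicit false

open Finset

namespace Pool.Agent.LH5

open Pool.Agent.LocH Pool.Agent.LH4

variable {X Ω : Type} [Fintype X] [DecidableEq X] [Fintype Ω] [DecidableEq Ω] {S : Sub X Ω}

/-- A root of `x_J s` serves every subset. -/
theorem nn_serve {W : Finset Ω} {s N : X →₀ ℕ} (h : NN S.car W s N) {B : Finset Ω} (hB : B ⊆ W) :
    B.card ≤ 2 * S.dgC B N := by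
  obtain ⟨J, hJ, h⟩ := h
  have h1 : S.dgC B (∑ c ∈ W, Finsupp.single (J c) 1 + s) = 2 * S.dgC B N := by
    rw [h, two_nsmul, dgC_add, two_mul]
  rw [← h1, dgC_add]
  have h2 : B.card ≤ S.dgC B (∑ c ∈ W, Finsupp.single (J c) 1) := by
    unfold Sub.dgC
    simp only [Finsupp.finsetSum_apply]
    rw [Finset.sum_comm]
    calc B.card = ∑ c ∈ B, 1 := Finset.card_eq_sum_ones B
      _ ≤ ∑ c ∈ B, ∑ x ∈ univ.filter (fun v => ¬ Disjoint (S.car v) B),
          (Finsupp.single (J c) 1 : X →₀ ℕ) x := by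
        refine Finset.sum_le_sum fun c hc => ?_
        refine le_trans ?_ (Finset.single_le_sum (f := fun x =>
          (Finsupp.single (J c) 1 : X →₀ ℕ) x) (fun _ _ => Nat.zero_le _)
          (Finset.mem_filter.2 ⟨Finset.mem_univ (J c),
            Finset.not_disjoint_iff.2 ⟨c, hJ c (hB hc), hc⟩⟩))
        rw [Finsupp.single_eq_same]
      _ ≤ _ := Finset.sum_le_sum_of_subset hB
  omega

/-- The data of a zone with one factor. -/
structure Bz (S : Sub X Ω) (A Q : Finset Ω) (i e : ℕ) (g : S.T) (v : X) : Prop where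
  hT : S.Top S.K
  hC : Cl S A
  hi : 2 * i + 2 ≤ A.card
  hi3 : 3 ≤ i
  he : e ≤ 1
  hg : Ker S A i g
  hK : Kx S A i g e
  hz : Zone S A Q e (Finsupp.single v 1)
  hQv : Q ⊆ S.car v
  hQ : Q.card = 3 + e

/-- The form `y ↦ t(x_v y)` on the restriction to the complement of the zone. -/
noncomputable def al (S : Sub X Ω) (A Q : Finset Ω) (g : S.T) (v : X) : S.T →ₗ[S.K] S.K :=
  rs S (A \ Q) (tt S A g (Finsupp.single v 1))

/-- Its square functional. -/
noncomputable def ff (S : Sub X Ω) (A Q : Finset Ω) (g : S.T) (v : X) : S.T →ₗ[S.K] S.K :=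
  sqL S.a (A \ Q) (al S A Q g v)

variable {A Q : Finset Ω} {i e : ℕ} {g : S.T} {v : X}

theorem Bz.cardU (B : Bz S A Q i e g v) : (A \ Q).card + (3 + e) = A.card := by
  rw [← B.hQ]
  exact Finset.card_sdiff_add_card_eq_card B.hz.sub

theorem Bz.crQ (B : Bz S A Q i e g v) : Q ⊆ S.cr (Finsupp.single v 1).support := by
  rw [Finsupp.support_single v one_ne_zero]
  unfold Sub.cr
  rw [Finset.singleton_biUnion]
  exact B.hQv

theorem al_mo (s : X →₀ ℕ) (hs : s.support ∈ S.fcs (A \ Q)) :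
    al S A Q g v (S.mo s) = S.Tr A (g * S.mo (Finsupp.single v 1 + s)) := by
  unfold al
  rw [rs_mo_eq fun h => absurd hs h, tt_mo]

theorem al_I {y : S.T} (hy : y ∈ S.I (A \ Q)) : al S A Q g v y = 0 := rs_I _ hy

theorem fcs_mono {U : Finset Ω} {F G : Finset X} (h : F ⊆ G) (hG : G ∈ S.fcs U) :
    F ∈ S.fcs U :=
  mem_fcs'.2 ⟨S.down _ (mem_fcs'.1 hG).1 _ h,
    (Finset.biUnion_subset_biUnion_of_subset_left _ h).trans (mem_fcs'.1 hG).2⟩

theorem ff_face {s : X →₀ ℕ} (hs : s.support ∉ S.fcs (A \ Q)) : ff S A Q g v (S.mo s) = 0 := by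
  have := S.charP_K
  have : Nonempty X := ⟨v⟩
  refine (sqL_mon_zero (drv_sub S) _ s).2 fun N hN => ?_
  refine al_I (mo_I fun h => hs (fcs_mono hN.support h))

theorem ff_mul_face (p : S.T) {s : X →₀ ℕ} (hs : s.support ∉ S.fcs (A \ Q)) :
    ff S A Q g v (p * S.mo s) = 0 :=
  form_zero fun t ht => ff_face (S.mem_I.1 (S.mul_I (mo_I hs) p) t ht)

/-- The relations for the form `al`. -/
theorem Bz.al_th (B : Bz S A Q i e g v) {b : Ω} (hb : b ∈ A \ Q) {M : X →₀ ℕ}
    (hd : M.degree + 2 + i = A.card) (h : ∀ B' ⊆ (A \ Q).erase b, B'.card ≤ 2 * S.dgC B' M) :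
    al S A Q g v (S.th b * S.mo M) = 0 := by
  by_cases h1 : M.support ∈ S.fcs (A \ Q)
  · have hτ : (Finsupp.single v 1 : X →₀ ℕ).degree = 1 := Finsupp.degree_single v 1
    refine rs_th (A := A) (fun t _ ht => tt_face A g _ ht)
      (tt_th B.hT B.hg (by rw [hτ]; omega) (Finset.sdiff_subset hb)) h1 fun u hu huU h3 => ?_
    exact flux_zero B.hK B.hz B.crQ (meet_of huU h3) (by rw [hτ]; omega)
      (fun B' hB => (serve_insert hu h hB).1) fun B' hB => (serve_insert hu h hB).2
  · exact al_I (S.mul_I (mo_I h1) _)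

theorem Bz.al_lam (B : Bz S A Q i e g v) {M : X →₀ ℕ}
    (hd : M.degree + 2 + i = A.card) (h : ∀ B' ⊆ A \ Q, B'.card ≤ 2 * S.dgC B' M) :
    al S A Q g v (S.lam (A \ Q) * S.mo M) = 0 := by
  by_cases h1 : M.support ∈ S.fcs (A \ Q)
  · have hτ : (Finsupp.single v 1 : X →₀ ℕ).degree = 1 := Finsupp.degree_single v 1
    refine rs_lam (A := A) Finset.sdiff_subset (fun t _ ht => tt_face A g _ ht)
      (tt_lam B.hg (by rw [hτ]; omega) fun _ => ?_) h1 fun u huU h3 => ?_
    · rw [cr_add]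
      intro c hc
      by_cases h4 : c ∈ Q
      · exact Finset.mem_union_left _ (B.crQ h4)
      · exact Finset.mem_union_right _ (cov_of_serve h (Finset.mem_sdiff.2 ⟨hc, h4⟩))
    · refine flux_zero B.hK B.hz B.crQ (meet_of huU h3) (by rw [hτ]; omega) (fun B' hB => ?_)
        fun B' hB => ?_
      · rw [dgC_add]
        have := h B' hB
        omega
      · have := h B' hB
        omega
  · exact al_I (S.mul_I (mo_I h1) _)

theorem Bz.ff_th (B : Bz S A Q i e g v) {b : Ω} (hb : b ∈ A \ Q) {s : X →₀ ℕ}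
    (hd : s.degree + 2 * i = A.card + e) : ff S A Q g v (S.th b * S.mo s) = 0 := by
  have := S.charP_K
  have : Nonempty X := ⟨v⟩
  have hU := B.cardU
  rw [← lf_sub]
  refine sqL_th_zero (drv_sub S) hb _ _ fun t ht M hM => ?_
  rw [supp_mo, Finset.mem_singleton] at ht
  subst ht
  rw [lf_sub]
  have h1 := hM.degree_eq
  rw [Finset.card_erase_of_mem hb] at h1
  have h2 : 1 ≤ (A \ Q).card := Finset.card_pos.2 ⟨b, hb⟩
  exact B.al_th hb (by omega) fun B' hB => nn_serve hM hB

theorem lf_lam (S : Sub X Ω) (U : Finset Ω) :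
    lf (fun u => if S.car u ⊆ U then (1 : S.K) else 0) = S.lam U := by
  unfold lf Sub.lam
  rw [Finset.sum_filter]
  refine Finset.sum_congr rfl fun u _ => ?_
  beta_reduce
  by_cases h : S.car u ⊆ U
  · rw [if_pos h, if_pos h, map_one, one_mul]
  · rw [if_neg h, if_neg h, map_zero, zero_mul]

theorem Bz.ff_lam (B : Bz S A Q i e g v) {s : X →₀ ℕ}
    (hd : s.degree + 1 + 2 * i = A.card + e) :
    ff S A Q g v (S.lam (A \ Q) ^ 2 * S.mo s) = 0 := by
  have := S.charP_K
  have : Nonempty X := ⟨v⟩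
  have hU := B.cardU
  rw [← lf_lam]
  refine sqL_lam_zero (drv_sub S) _ _ _ fun t ht M hM => ?_
  rw [supp_mo, Finset.mem_singleton] at ht
  subst ht
  rw [lf_lam]
  have h1 := hM.degree_eq
  exact B.al_lam (by omega) fun B' hB => nn_serve hM hB

/-- The vanishing at the products of two vertices outside the zone and one more factor which meets
the zone. -/
theorem Bz.zz (B : Bz S A Q i e g v) {z1 z2 : X}
    (hz1 : S.car z1 ⊆ A \ Q) (hz1' : (S.car z1).card ≠ 1)
    (hz2 : S.car z2 ⊆ A \ Q) (hz2' : (S.car z2).card ≠ 1) {r : X →₀ ℕ}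
    (hd : r.degree + 3 + i = A.card)
    (hcov : A \ Q ⊆ S.cr ((Finsupp.single z1 1 + Finsupp.single z2 1) + r).support)
    (hw : ∃ w ∈ r.support, ¬ Disjoint (S.car w) Q) :
    tt S A g (Finsupp.single v 1)
      (S.mo ((Finsupp.single z1 1 + Finsupp.single z2 1) + r)) = 0 := by
  set ζ : X →₀ ℕ := Finsupp.single z1 1 + Finsupp.single z2 1 with hζ
  have hτ : (Finsupp.single v 1 + ζ : X →₀ ℕ).degree = 3 := by
    rw [hζ, map_add, map_add, Finsupp.degree_single, Finsupp.degree_single,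
      Finsupp.degree_single]
  have key : tt S A g (Finsupp.single v 1 + ζ) (S.mo r) = 0 := by
    refine elim B.hT (U := A) (n := r.degree)
      (fun r => (∃ w ∈ r.support, ¬ Disjoint (S.car w) Q) ∧ A \ Q ⊆ S.cr (ζ + r).support)
      (fun s _ hs => tt_face A g _ hs)
      (fun c hc s hs => tt_th B.hT B.hg (by rw [hτ]; omega) hc) ?_ ?_ r rfl ⟨hw, hcov⟩
    · rintro p w c s hp hcw ⟨⟨x, hx, hxQ⟩, h2⟩
      refine ⟨?_, ?_⟩
      · rw [supp_single_add, Finset.mem_insert] at hx
        rcases hx with rfl | hx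
        · rw [hp, Finset.disjoint_singleton_left, not_not] at hxQ
          exact ⟨w, by rw [supp_single_add]; exact Finset.mem_insert_self _ _,
            Finset.not_disjoint_iff.2 ⟨c, hcw, hxQ⟩⟩
        · exact ⟨x, by rw [supp_single_add]; exact Finset.mem_insert_of_mem hx, hxQ⟩
      · rw [cr_add ζ, cr_single_add p s] at h2
        rw [cr_add ζ, cr_single_add w s]
        refine h2.trans (Finset.union_subset_union_right (Finset.union_subset_union_left ?_))
        rw [hp, Finset.singleton_subset_iff]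
        exact hcw
    · rintro s hs _ ⟨hw', hcov'⟩ hnc
      rw [tt_mo, add_assoc]
      by_cases h3 : (Finsupp.single v 1 + (ζ + s)).support ∈ S.fcs A
      · refine B.hK _ ?_ h3 ?_ (zf B.hC B.hi B.hz.sub B.hQv B.hQ hz1 hz1' hz2 hz2' hnc
          (by omega) h3 hcov' hw')
        · rw [← add_assoc, map_add, hτ]
          omega
        · rw [cr_single_add]
          intro c hc
          by_cases h4 : c ∈ Q
          · exact Finset.mem_union_left _ (B.hQv h4)
          · exact Finset.mem_union_right _ (hcov' (Finset.mem_sdiff.2 ⟨hc, h4⟩))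
      · exact S.Tr_I (S.mul_I (mo_I h3) g)
  rw [tt_mo] at key ⊢
  rwa [← add_assoc]

end Pool.Agent.LH5
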