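import Pool.Agent.LH5.Bf

/-!
# The square functional is zero at the products of two vertices outside the zone
-/

set_option autoImplicit false

open Finset

namespace Pool.Agent.LH5

open Pool.Agent.LocH Pool.Agent.LH4

variable {X Ω : Type} [Fintype X] [DecidableEq X] [Fintype Ω] [DecidableEq Ω] {S : Sub X Ω}

theorem supp_pair (z1 z2 : X) :
    (Finsupp.single z1 1 + Finsupp.single z2 1 : X →₀ ℕ).support = {z1, z2} := by
  rw [supp_single_add, Finsupp.support_single z2 one_ne_zero]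

theorem xT_pair {z1 z2 : X} (hne : z1 ≠ z2) :
    S.xT {z1, z2} = S.mo (Finsupp.single z1 1 + Finsupp.single z2 1) := by
  unfold Sub.xT Sub.mo
  rw [Finset.prod_pair hne, MvPolynomial.X, MvPolynomial.X, MvPolynomial.monomial_mul, mul_one]

theorem deg_add (s t : X →₀ ℕ) : (s + t).degree = s.degree + t.degree := map_add _ _ _

theorem supp_pair_add (z1 z2 : X) (t : X →₀ ℕ) :
    ((Finsupp.single z1 1 + Finsupp.single z2 1) + t).support = t.support ∪ {z1, z2} := by
  rw [supp_add_eq, supp_pair, Finset.union_comm]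

variable {A Q : Finset Ω} {i e : ℕ} {g : S.T} {v : X}

section pair

variable {z1 z2 : X}

theorem Bz.kilT (B : Bz S A Q i e g v) (hne : z1 ≠ z2)
    (hz1 : S.car z1 ⊆ A \ Q) (hz1' : (S.car z1).card ≠ 1)
    (hz2 : S.car z2 ⊆ A \ Q) (hz2' : (S.car z2).card ≠ 1) {n : ℕ} (hn : n + 3 + i = A.card) :
    S.KilT {z1, z2} (A \ Q) n (al S A Q g v ∘ₗ LinearMap.mulLeft S.K (S.xT {z1, z2})) := by
  refine ⟨fun y hy _ => al_I (S.xT_IT hy), fun c hc k hk y hy hyk => ?_⟩
  change al S A Q g v (S.xT {z1, z2} * (S.th c * y)) = 0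
  rw [xT_pair hne, ← mul_assoc]
  refine form_mul_zero _ fun t ht => ?_
  have htk := deg_of_H hyk ht
  set ζ : X →₀ ℕ := Finsupp.single z1 1 + Finsupp.single z2 1 with hζ
  have hζd : ζ.degree = 2 := by
    rw [hζ, map_add, Finsupp.degree_single, Finsupp.degree_single]
  rw [show S.mo ζ * S.th c * S.mo t = S.th c * S.mo (ζ + t) by rw [← mo_mul ζ t]; ring]
  by_cases h1 : (ζ + t).support ∈ S.fcs (A \ Q)
  · have h2 : (A \ Q).erase c ⊆ S.cr (t.support ∪ {z1, z2}) := by
      refine S.mem_JT.1 hy t ht ?_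
      rw [← supp_pair_add]
      exact h1
    rw [← supp_pair_add, ← hζ] at h2
    have hτ : (Finsupp.single v 1 : X →₀ ℕ).degree = 1 := Finsupp.degree_single v 1
    refine rs_th (A := A) (fun t _ ht => tt_face A g _ ht)
      (tt_th B.hT B.hg (by rw [hτ, map_add, hζd]; omega) (Finset.sdiff_subset hc)) h1
      fun u hu huU h3 => ?_
    rw [add_left_comm]
    refine B.zz hz1 hz1' hz2 hz2' ?_ ?_ ?_
    · rw [deg_single_add]
      omega
    · rw [add_left_comm, cr_single_add]
      intro b hb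
      by_cases hbc : b = c
      · rw [hbc]
        exact Finset.mem_union_left _ hu
      · exact Finset.mem_union_right _ (h2 (Finset.mem_erase.2 ⟨hbc, hb⟩))
    · exact ⟨u, by rw [supp_single_add]; exact Finset.mem_insert_self _ _, meet_of huU h3⟩
  · exact al_I (S.mul_I (mo_I h1) _)

/-- `al (x_τ λ y) = 0` for `y` in the interior ideal of the star of `τ`. -/
theorem Bz.al_pair_lam (B : Bz S A Q i e g v)
    (hz1 : S.car z1 ⊆ A \ Q) (hz1' : (S.car z1).card ≠ 1)
    (hz2 : S.car z2 ⊆ A \ Q) (hz2' : (S.car z2).card ≠ 1) {t : X →₀ ℕ}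
    (ht : t.degree + 4 + i = A.card)
    (hJ : t.support ∪ {z1, z2} ∈ S.fcs (A \ Q) → A \ Q ⊆ S.cr (t.support ∪ {z1, z2})) :
    al S A Q g v (S.lam (A \ Q) *
      S.mo ((Finsupp.single z1 1 + Finsupp.single z2 1) + t)) = 0 := by
  set ζ : X →₀ ℕ := Finsupp.single z1 1 + Finsupp.single z2 1 with hζ
  have hζd : ζ.degree = 2 := by
    rw [hζ, map_add, Finsupp.degree_single, Finsupp.degree_single]
  by_cases h1 : (ζ + t).support ∈ S.fcs (A \ Q)
  · have h2 : A \ Q ⊆ S.cr (t.support ∪ {z1, z2}) := by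
      refine hJ ?_
      rw [← supp_pair_add]
      exact h1
    rw [← supp_pair_add, ← hζ] at h2
    have hτ : (Finsupp.single v 1 : X →₀ ℕ).degree = 1 := Finsupp.degree_single v 1
    refine rs_lam (A := A) Finset.sdiff_subset (fun t _ ht => tt_face A g _ ht)
      (tt_lam B.hg (by rw [hτ, map_add, hζd]; omega) fun _ => ?_) h1 fun u huU h3 => ?_
    · rw [cr_add]
      intro c hc
      by_cases h4 : c ∈ Q
      · exact Finset.mem_union_left _ (B.crQ h4)
      · exact Finset.mem_union_right _ (h2 (Finset.mem_sdiff.2 ⟨hc, h4⟩))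
    · rw [add_left_comm]
      refine B.zz hz1 hz1' hz2 hz2' ?_ ?_ ?_
      · rw [deg_single_add]
        omega
      · rw [add_left_comm, cr_single_add]
        exact h2.trans Finset.subset_union_right
      · exact ⟨u, by rw [supp_single_add]; exact Finset.mem_insert_self _ _, meet_of huU h3⟩
  · exact al_I (S.mul_I (mo_I h1) _)

/-- The functional `F` is zero at the multiples of `z1 z2`. -/
theorem Bz.honest (B : Bz S A Q i e g v) (hne : z1 ≠ z2)
    (hz1 : S.car z1 ⊆ A \ Q) (hz1' : (S.car z1).card ≠ 1)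
    (hz2 : S.car z2 ⊆ A \ Q) (hz2' : (S.car z2).card ≠ 1) {s : X →₀ ℕ}
    (hs : s.degree + 2 + 2 * i = A.card + e) :
    ff S A Q g v (S.lam (A \ Q) *
      S.mo ((Finsupp.single z1 1 + Finsupp.single z2 1) + s)) = 0 := by
  have := S.charP_K
  have : Nonempty X := ⟨v⟩
  have hU := B.cardU
  have hi := B.hi
  have hi3 := B.hi3
  have he := B.he
  set ζ : X →₀ ℕ := Finsupp.single z1 1 + Finsupp.single z2 1 with hζ
  have hζd : ζ.degree = 2 := by
    rw [hζ, map_add, Finsupp.degree_single, Finsupp.degree_single]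
  by_cases hτ : ({z1, z2} : Finset X) ∈ S.fcs (A \ Q)
  swap
  · refine ff_mul_face _ fun h => hτ (fcs_mono ?_ h)
    rw [hζ, supp_pair_add]
    exact Finset.subset_union_right
  obtain ⟨n, hn⟩ : ∃ n, n + 3 + i = A.card := ⟨A.card - (3 + i), by omega⟩
  obtain ⟨k, hk⟩ : ∃ k, n + k + ({z1, z2} : Finset X).card = (A \ Q).card := by
    refine ⟨(A \ Q).card - (n + 2), ?_⟩
    rw [Finset.card_pair hne]
    omega
  obtain ⟨h, hh1, hh2, hh3⟩ := repT B.hT (mem_fcs'.1 hτ).1 hk (B.kilT hne hz1 hz1' hz2 hz2' hn)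
  rw [Finset.card_pair hne] at hk
  set y : S.T := S.lam (A \ Q) * S.mo (ζ + s) with hy
  have hysup : ∀ t ∈ y.support, ∃ t' : X →₀ ℕ, t = ζ + t' ∧ t'.degree = s.degree + 1 := by
    intro t ht
    rw [hy, lam_mul_mo] at ht
    have h1 := MvPolynomial.support_sum ht
    rw [Finset.mem_biUnion] at h1
    obtain ⟨u, -, hu⟩ := h1
    rw [supp_mo, Finset.mem_singleton] at hu
    refine ⟨Finsupp.single u 1 + s, ?_, deg_single_add u s⟩
    rw [hu, add_left_comm]
  have h1 : ff S A Q g v y = sqL S.a (A \ Q) (S.Tr (A \ Q) ∘ₗ LinearMap.mulLeft S.K h) y := by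
    refine sqL_congr fun t ht N hN => ?_
    obtain ⟨t', rfl, ht'⟩ := hysup t ht
    have h2 : ({z1, z2} : Finset X) ⊆ N.support := by
      refine Finset.Subset.trans ?_ hN.support
      rw [hζ, supp_pair_add]
      exact Finset.subset_union_right
    have h3 : z1 ∈ N.support := h2 (Finset.mem_insert_self _ _)
    obtain ⟨N1, rfl⟩ := exists_single_add' h3
    have h4 : z2 ∈ N1.support := by
      have h5 : z2 ∈ (Finsupp.single z1 1 + N1).support :=
        h2 (Finset.mem_insert_of_mem (Finset.mem_singleton_self _))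
      rw [supp_single_add, Finset.mem_insert] at h5
      exact h5.resolve_left (Ne.symm hne)
    obtain ⟨N2, rfl⟩ := exists_single_add' h4
    have h5 : Finsupp.single z1 1 + (Finsupp.single z2 1 + N2) = ζ + N2 := by
      rw [hζ, add_assoc]
    rw [h5] at hN ⊢
    have h6 := hN.degree_eq
    rw [deg_add ζ N2, deg_add ζ t', hζd, ht'] at h6
    have h7 : A \ Q ⊆ S.cr (ζ + N2).support := fun c hc => by
      obtain ⟨x, hx, hcx⟩ := hN.exists_mem hc
      exact Finset.mem_biUnion.2 ⟨x, hx, hcx⟩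
    have h8 : S.mo N2 ∈ S.JT {z1, z2} (A \ Q) (A \ Q) := by
      rw [S.mem_JT]
      intro m hm _
      rw [supp_mo, Finset.mem_singleton] at hm
      rw [hm, ← supp_pair_add]
      exact h7
    have h9 : N2.degree = n := by omega
    have h10 := hh3 (S.mo N2) h8 (h9 ▸ mo_H N2)
    rw [LinearMap.comp_apply, LinearMap.mulLeft_apply, xT_pair hne, mo_mul] at h10
    rw [h10, LinearMap.comp_apply, LinearMap.mulLeft_apply, ← hζ, ← mo_mul ζ N2]
    congr 1
    ring
  have h2 : sqL S.a (A \ Q) (S.Tr (A \ Q) ∘ₗ LinearMap.mulLeft S.K h) y =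
      S.Tr (A \ Q) (h ^ 2 * y) := by
    refine p5 B.hT fun t ht m hm => ?_
    obtain ⟨t', rfl, ht'⟩ := hysup t ht
    have h3 := deg_of_H hh2 hm
    refine ⟨?_, fun _ => ?_⟩
    · rw [deg_add (2 • m) (ζ + t'), deg_add ζ t', map_nsmul, hζd, ht', h3, smul_eq_mul]
      omega
    · have h4 : m.support ∪ {z1, z2} ⊆ (2 • m + (ζ + t')).support := by
        intro x hx
        rw [supp_add_eq, hζ, supp_pair_add]
        rcases Finset.mem_union.1 hx with hx | hx
        · refine Finset.mem_union_left _ ?_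
          rw [Finsupp.mem_support_iff] at hx ⊢
          rw [Finsupp.smul_apply, smul_eq_mul]
          omega
        · exact Finset.mem_union_right _ (Finset.mem_union_right _ hx)
      by_cases h5 : m.support ∪ {z1, z2} ∈ S.fcs (A \ Q)
      · exact (S.mem_JT.1 hh1 m hm h5).trans (Finset.biUnion_subset_biUnion_of_subset_left _ h4)
      · exact absurd (fcs_mono h4 ‹_›) h5
  rw [h1, h2]
  have h3 : h ^ 2 * y = S.xT {z1, z2} * (h * (S.lam (A \ Q) * (h * S.mo s))) := by
    rw [hy, xT_pair hne, ← hζ, ← mo_mul ζ s]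
    ring
  have h4 : h * S.mo s ∈ S.JT {z1, z2} (A \ Q) (A \ Q) := by
    rw [mul_comm]
    exact S.mul_JT hh1 _
  have h5 : h * S.mo s ∈ S.H (k + s.degree) := S.mul_H hh2 (mo_H s)
  have h6 : S.lam (A \ Q) * (h * S.mo s) ∈ S.H n := by
    have h7 := S.mul_H (lam_H (S := S) (A \ Q)) h5
    have h8 : 1 + (k + s.degree) = n := by omega
    rwa [h8] at h7
  rw [h3, ← hh3 _ (S.mul_JT h4 _) h6]
  rw [LinearMap.comp_apply, LinearMap.mulLeft_apply, xT_pair hne, ← hζ, ← mul_assoc]
  refine form_mul_zero _ fun t ht => ?_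
  have h7 := deg_of_H h5 ht
  rw [show S.mo ζ * S.lam (A \ Q) * S.mo t = S.lam (A \ Q) * S.mo (ζ + t) by
    rw [← mo_mul ζ t]; ring]
  exact B.al_pair_lam hz1 hz1' hz2 hz2' (by omega) (S.mem_JT.1 h4 t ht)

end pair

end Pool.Agent.LH5
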