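import Pool.Agent.LH5.Bg

/-!
# The square functional is zero, and the conclusion for a zone with one factor
-/

set_option autoImplicit false

open Finset

namespace Pool.Agent.LH5

open Pool.Agent.LocH Pool.Agent.LH4

variable {X Ω : Type} [Fintype X] [DecidableEq X] [Fintype Ω] [DecidableEq Ω] {S : Sub X Ω}

variable {A Q : Finset Ω} {i e : ℕ} {g : S.T} {v : X}

/-- The form `y ↦ f (λ y)`. -/
noncomputable def FF' (S : Sub X Ω) (A Q : Finset Ω) (g : S.T) (v : X) : S.T →ₗ[S.K] S.K :=
  ff S A Q g v ∘ₗ LinearMap.mulLeft S.K (S.lam (A \ Q))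

theorem FF_apply (y : S.T) : FF' S A Q g v y = ff S A Q g v (S.lam (A \ Q) * y) := rfl

theorem Bz.F_th (B : Bz S A Q i e g v) {b : Ω} (hb : b ∈ A \ Q) {s : X →₀ ℕ}
    (hd : s.degree + 1 + 2 * i = A.card + e) : FF' S A Q g v (S.th b * S.mo s) = 0 := by
  rw [FF_apply, mul_left_comm]
  refine form_mul_zero _ fun t ht => B.ff_th hb ?_
  rw [lam_mul_mo] at ht
  have h1 := MvPolynomial.support_sum ht
  rw [Finset.mem_biUnion] at h1
  obtain ⟨u, -, hu⟩ := h1
  rw [supp_mo, Finset.mem_singleton] at hu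
  rw [hu, deg_single_add]
  exact hd

theorem Bz.F_pure (B : Bz S A Q i e g v) {z : X} (hz : S.car z ⊆ A \ Q)
    (hz' : (S.car z).card ≠ 1) {s : X →₀ ℕ} (hd : s.degree + 1 + 2 * i = A.card + e)
    (h : ∀ u, S.car u ⊆ A \ Q → (S.car u).card ≠ 1 → u ≠ z →
      FF' S A Q g v (S.mo (Finsupp.single u 1 + s)) = 0) :
    FF' S A Q g v (S.mo (Finsupp.single z 1 + s)) = 0 := by
  have := S.charP_K
  choose p hp using fun c : Ω => exists_corner B.hT c
  have hpa : ∀ c, S.a (p c) c ≠ 0 := fun c => S.a_ne (by rw [hp]; exact Finset.mem_singleton_self c)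
  set G : X → S.K := fun u => FF' S A Q g v (S.mo (Finsupp.single u 1 + s)) with hG
  have hG0 : ∀ u, ¬ S.car u ⊆ A \ Q → G u = 0 := by
    intro u hu
    rw [hG]
    beta_reduce
    rw [FF_apply]
    refine ff_mul_face _ fun h1 => hu ?_
    have h2 := (mem_fcs'.1 h1).2
    rw [cr_single_add] at h2
    exact Finset.subset_union_left.trans h2
  have h1 : ∑ u, G u = 0 := by
    have h2 := B.ff_lam hd
    rw [pow_two, mul_assoc, ← FF_apply, lam_mul_mo, map_sum] at h2
    rw [← h2]
    symm
    refine Finset.sum_subset (Finset.filter_subset _ _) fun u _ hu => hG0 u fun h3 => hu ?_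
    exact Finset.mem_filter.2 ⟨Finset.mem_univ u, h3⟩
  have h2 : ∀ b ∈ A \ Q, ∑ u, S.a u b * G u = 0 := by
    intro b hb
    have h3 := B.F_th hb hd
    rw [th_mul_mo', map_sum] at h3
    rw [← h3]
    exact Finset.sum_congr rfl fun u _ => by rw [map_smul, smul_eq_mul]
  have h3 : ∑ u, (1 + ∑ b ∈ A \ Q, (S.a (p b) b)⁻¹ * S.a u b) * G u = 0 := by
    have h4 : ∀ u, (1 + ∑ b ∈ A \ Q, (S.a (p b) b)⁻¹ * S.a u b) * G u =
        G u + ∑ b ∈ A \ Q, (S.a (p b) b)⁻¹ * (S.a u b * G u) := by
      intro u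
      rw [add_mul, one_mul, Finset.sum_mul]
      congr 1
      exact Finset.sum_congr rfl fun b _ => mul_assoc _ _ _
    simp only [h4]
    rw [Finset.sum_add_distrib, h1, zero_add, Finset.sum_comm]
    refine Finset.sum_eq_zero fun b hb => ?_
    rw [← Finset.mul_sum, h2 b hb, mul_zero]
  rw [Finset.sum_eq_single z] at h3
  · refine (mul_eq_zero.1 h3).resolve_left fun h4 => ?_
    have h5 : (S.car z).Nonempty := by
      rw [← Finset.card_pos]
      have h6 := S.card_le {z} (S.vert z)
      rw [Finset.card_singleton, Finset.singleton_biUnion] at h6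
      exact h6
    obtain ⟨b0, hb0⟩ := h5
    have h6 := congrArg (S.pa z b0) h4
    rw [S.pa_add, S.pa_one, S.pa_zero, zero_add, S.pa_sum, Finset.sum_eq_single b0] at h6
    · rw [S.pa_mul, S.pa_inv, S.pa_a hb0, S.pa_a hb0, if_pos ⟨rfl, rfl⟩, if_neg, zero_div,
        mul_zero, add_zero, mul_one] at h6
      · exact inv_ne_zero (hpa b0) h6
      · rintro ⟨h7, -⟩
        refine hz' ?_
        rw [h7, hp, Finset.card_singleton]
    · intro b _ hb
      rw [S.pa_mul, S.pa_inv, S.pa_a hb0, S.pa_a hb0, if_neg fun h => hb h.2.symm, if_neg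
        fun h => hb h.2.symm, zero_div, mul_zero, mul_zero, add_zero]
    · intro h7
      exact absurd (hz hb0) h7
  · intro u _ huz
    by_cases h4 : S.car u ⊆ A \ Q
    · by_cases h5 : (S.car u).card = 1
      · obtain ⟨c, hc⟩ := Finset.card_eq_one.1 h5
        have h6 : u = p c := corner_unique B.hT hc (hp c)
        have h7 : c ∈ A \ Q := h4 (by rw [hc]; exact Finset.mem_singleton_self c)
        have h8 : ∑ b ∈ A \ Q, (S.a (p b) b)⁻¹ * S.a u b = 1 := by
          rw [Finset.sum_eq_single c]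
          · rw [h6]
            exact inv_mul_cancel₀ (hpa c)
          · intro b _ hb
            have h9 : S.a u b = 0 := S.a_zero (by rw [hc, Finset.mem_singleton]; exact hb)
            rw [h9, mul_zero]
          · intro h8
            exact absurd h7 h8
        rw [h8, CharTwo.add_self_eq_zero, zero_mul]
      · rw [hG]
        beta_reduce
        rw [h u h4 h5 huz, mul_zero]
    · rw [hG0 u h4, mul_zero]
  · intro h4
    exact absurd (Finset.mem_univ z) h4

theorem Bz.F_all (B : Bz S A Q i e g v) {s : X →₀ ℕ} (hd : s.degree + 2 * i = A.card + e) :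
    FF' S A Q g v (S.mo s) = 0 := by
  have hi := B.hi
  refine elim B.hT (U := A \ Q) (n := s.degree) (fun _ => True)
    (fun s _ hs => ff_mul_face _ hs) (fun c hc t ht => B.F_th hc (by omega))
    (fun _ _ _ _ _ _ _ => trivial) ?_ s rfl trivial
  intro t ht htf _ hnc
  have htd : 2 ≤ t.degree := by omega
  have hcar : ∀ x ∈ t.support, S.car x ⊆ A \ Q := fun x hx =>
    (Finset.subset_biUnion_of_mem S.car hx).trans (mem_fcs'.1 htf).2
  have hne : t.support.Nonempty := by
    rw [Finset.nonempty_iff_ne_empty, Ne, Finsupp.support_eq_empty]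
    rintro rfl
    rw [map_zero] at htd
    omega
  obtain ⟨z, hz⟩ := hne
  obtain ⟨t1, rfl⟩ := exists_single_add' hz
  rw [deg_single_add] at htd ht
  by_cases hex : ∃ w ∈ t1.support, w ≠ z
  · obtain ⟨w, hw, hwz⟩ := hex
    have hwt : w ∈ (Finsupp.single z 1 + t1).support := by
      rw [supp_single_add]
      exact Finset.mem_insert_of_mem hw
    obtain ⟨t2, rfl⟩ := exists_single_add' hw
    rw [deg_single_add] at htd ht
    change FF' S A Q g v _ = 0
    rw [FF_apply, ← add_assoc]
    exact B.honest (Ne.symm hwz) (hcar z hz) (hnc z hz) (hcar w hwt) (hnc w hwt) (by omega)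
  · push Not at hex
    refine B.F_pure (hcar z hz) (hnc z hz) (by omega) fun u hu hu' huz => ?_
    have hne1 : t1.support.Nonempty := by
      rw [Finset.nonempty_iff_ne_empty, Ne, Finsupp.support_eq_empty]
      rintro rfl
      rw [map_zero] at htd
      omega
    obtain ⟨w, hw⟩ := hne1
    obtain rfl := hex w hw
    obtain ⟨t2, rfl⟩ := exists_single_add' hw
    rw [deg_single_add] at htd ht
    rw [FF_apply, ← add_assoc]
    exact B.honest huz hu hu' (hcar w hz) (hnc w hz) (by omega)

/-- The conclusion for a zone with one factor. -/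
theorem Bz.concl (B : Bz S A Q i e g v) {N : X →₀ ℕ} (hd : N.degree + 1 + i = A.card)
    (hN : N.support ∈ S.fcs (A \ Q)) (hNs : ∀ B' ⊆ A \ Q, B'.card ≤ 2 * S.dgC B' N) :
    S.Tr A (g * S.mo (Finsupp.single v 1 + N)) = 0 := by
  have := S.charP_K
  have hi := B.hi
  have he := B.he
  have hU := B.cardU
  have hUn : (A \ Q).Nonempty := by
    rw [← Finset.card_pos]
    have := B.hi3
    omega
  obtain ⟨J, hJ, hJc⟩ := S.exists_match hUn (n := N) hNs
  obtain ⟨k, hk, hkd⟩ := Sub.exists_compl hJc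
  have hk0 : k.support.Nonempty := by
    rw [Finset.nonempty_iff_ne_empty, Ne, Finsupp.support_eq_empty]
    rintro rfl
    rw [map_zero] at hkd
    omega
  obtain ⟨w, hw⟩ := hk0
  obtain ⟨M, rfl⟩ := exists_single_add' hw
  rw [deg_single_add] at hkd
  have hwN : w ∈ N.support := by
    rw [Finsupp.mem_support_iff]
    have h1 := DFunLike.congr_fun hk w
    simp only [Finsupp.coe_add, Pi.add_apply, Finsupp.coe_smul, Pi.smul_apply, smul_eq_mul,
      Finsupp.single_eq_same] at h1
    omega
  have hwU : S.car w ⊆ A \ Q :=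
    (Finset.subset_biUnion_of_mem S.car hwN).trans (mem_fcs'.1 hN).2
  have h0 := B.F_all (s := M) (by omega)
  rw [FF_apply, lam_mul_mo, map_sum] at h0
  have h1 := congrArg (DI S.pa J (A \ Q).toList) h0
  rw [DI_zero (drv_sub S), DI_sum (drv_sub S)] at h1
  have h2 : ∀ u, DI S.pa J (A \ Q).toList (ff S A Q g v (S.mo (Finsupp.single u 1 + M))) =
      rt (mon (al S A Q g v)) (∑ c ∈ A \ Q, Finsupp.single (J c) 1 +
        (Finsupp.single u 1 + M)) ^ 2 := by
    intro u
    have h3 : ff S A Q g v (S.mo (Finsupp.single u 1 + M)) =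
        sqW S.a (A \ Q) (mon (al S A Q g v)) (Finsupp.single u 1 + M) :=
      sqL_mon (a := S.a) (W := A \ Q) (al S A Q g v) (Finsupp.single u 1 + M)
    rw [h3]
    exact DI_sqW (drv_sub S) J (Finset.nodup_toList _) (Finset.toList_toFinset _) hJ _ _
  rw [Finset.sum_congr rfl fun u _ => h2 u, Finset.sum_eq_single w] at h1
  · rw [rt_eq hk] at h1
    have h3 : al S A Q g v (S.mo N) = 0 := pow_eq_zero_iff two_ne_zero |>.1 h1
    rwa [al_mo N hN] at h3
  · intro u _ huw
    rw [rt_non, zero_pow two_ne_zero]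
    intro n hn
    have h5 := DFunLike.congr_fun hn u
    have h6 := DFunLike.congr_fun hk u
    simp only [Finsupp.coe_add, Pi.add_apply, Finsupp.coe_smul, Pi.smul_apply, smul_eq_mul,
      Finsupp.single_eq_same] at h5 h6
    rw [Finsupp.single_eq_of_ne huw] at h6
    omega
  · intro h3
    exact absurd (Finset.mem_filter.2 ⟨Finset.mem_univ w, hwU⟩) h3

end Pool.Agent.LH5
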