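import Pool.Agent.LH5.Ast
import Pool.Agent.LocH.G25
import Pool.Agent.LH4.TopB

/-!
# The elimination of the corners
-/

set_option autoImplicit false

open Finset

namespace Pool.Agent.LH5

open Pool.Agent.LocH Pool.Agent.LH4

variable {X Ω : Type} [Fintype X] [DecidableEq X] [Fintype Ω] [DecidableEq Ω] {S : Sub X Ω}

/-- Two vertices with the same carrier of size one are equal. -/
theorem corner_unique (hT : S.Top S.K) {c : Ω} {e u : X} (he : S.car e = {c})
    (hu : S.car u = {c}) : e = u := by
  by_contra hne
  have hR : (∅ : Finset X) ∈ S.fcs {c} := by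
    unfold Sub.fcs
    rw [Finset.mem_filter]
    exact ⟨S.empty_mem, by unfold Sub.cr; simp⟩
  have h1 := S.c3 hT hR (Finset.singleton_nonempty c) (by simp) (by
    unfold Sub.cr
    simp only [Finset.biUnion_empty]
    exact (Finset.singleton_ne_empty c).symm)
  have hmem : ∀ x : X, S.car x = {c} → ({x} : Finset X) ∈ (S.fac {c}).filter (∅ ⊆ ·) := by
    intro x hx
    rw [Finset.mem_filter]
    refine ⟨?_, Finset.empty_subset _⟩
    unfold Sub.fac Sub.st
    rw [Finset.mem_filter]
    refine ⟨S.vert x, Finset.empty_subset _, ?_, ?_⟩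
    · unfold Sub.cr
      rw [Finset.singleton_biUnion, hx]
    · simp
  have h2 : 1 < ((S.fac {c}).filter (∅ ⊆ ·)).card := by
    rw [Finset.one_lt_card]
    exact ⟨{e}, hmem e he, {u}, hmem u hu, fun h => hne (Finset.singleton_injective h)⟩
  omega

theorem exists_corner (hT : S.Top S.K) (c : Ω) : ∃ e, S.car e = {c} := by
  have h1 : (∅ : Finset X) ∈ S.fcs {c} := by
    unfold Sub.fcs
    rw [Finset.mem_filter]
    exact ⟨S.empty_mem, by unfold Sub.cr; simp⟩
  obtain ⟨F, hF⟩ := hT.ne {c} ∅ (Finset.singleton_nonempty c) h1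
  unfold Sub.st at hF
  rw [Finset.mem_filter, Finset.card_singleton] at hF
  obtain ⟨-, -, h3, h4⟩ := hF
  obtain ⟨e, rfl⟩ := Finset.card_eq_one.1 h4
  unfold Sub.cr at h3
  rw [Finset.singleton_biUnion] at h3
  exact ⟨e, h3⟩

/-- The number of the corner factors. -/
def cc (S : Sub X Ω) (n : X →₀ ℕ) : ℕ := ∑ v, if (S.car v).card = 1 then n v else 0

theorem cc_add (n m : X →₀ ℕ) : cc S (n + m) = cc S n + cc S m := by
  unfold cc
  rw [← Finset.sum_add_distrib]
  refine Finset.sum_congr rfl fun v _ => ?_
  split_ifs <;> simp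

theorem cc_single (u : X) :
    cc S (Finsupp.single u 1) = if (S.car u).card = 1 then 1 else 0 := by
  unfold cc
  rw [Finset.sum_eq_single u]
  · rw [Finsupp.single_eq_same]
  · intro v _ hv
    rw [Finsupp.single_eq_of_ne hv]
    simp
  · intro h
    exact absurd (Finset.mem_univ u) h

theorem exists_single_add' {w : X} {M : X →₀ ℕ} (h : w ∈ M.support) :
    ∃ M' : X →₀ ℕ, M = Finsupp.single w 1 + M' := by
  have h1 : Finsupp.single w 1 ≤ M := by
    rw [Finsupp.single_le_iff]
    have := Finsupp.mem_support_iff.1 h
    omega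
  exact exists_add_of_le h1

/-- The elimination of the corners. -/
theorem elim (hT : S.Top S.K) {U : Finset Ω} {n : ℕ} {f : S.T →ₗ[S.K] S.K}
    (P : (X →₀ ℕ) → Prop)
    (hface : ∀ s : X →₀ ℕ, s.degree = n → s.support ∉ S.fcs U → f (S.mo s) = 0)
    (hth : ∀ c ∈ U, ∀ s : X →₀ ℕ, s.degree + 1 = n → f (S.th c * S.mo s) = 0)
    (hP : ∀ (p w : X) (c : Ω) (s : X →₀ ℕ), S.car p = {c} → c ∈ S.car w →
      P (Finsupp.single p 1 + s) → P (Finsupp.single w 1 + s))
    (h0 : ∀ s : X →₀ ℕ, s.degree = n → s.support ∈ S.fcs U → P s →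
      (∀ v ∈ s.support, (S.car v).card ≠ 1) → f (S.mo s) = 0) :
    ∀ s : X →₀ ℕ, s.degree = n → P s → f (S.mo s) = 0 := by
  have key : ∀ m : ℕ, ∀ s : X →₀ ℕ, cc S s = m → s.degree = n → P s → f (S.mo s) = 0 := by
    intro m
    induction m using Nat.strong_induction_on with
    | _ m ih =>
      intro s hm hs hPs
      by_cases h1 : s.support ∈ S.fcs U
      · by_cases h2 : ∀ v ∈ s.support, (S.car v).card ≠ 1
        · exact h0 s hs h1 hPs h2
        · push Not at h2
          obtain ⟨p, hp, hp1⟩ := h2
          obtain ⟨c, hc⟩ := Finset.card_eq_one.1 hp1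
          obtain ⟨s', rfl⟩ := exists_single_add' hp
          have hcU : c ∈ U := by
            have h3 := (mem_fcs'.1 h1).2
            rw [supp_single_add, cr_insert, hc] at h3
            exact h3 (Finset.mem_union_left _ (Finset.mem_singleton_self c))
          rw [deg_single_add] at hs
          have h4 := hth c hcU s' hs
          rw [th_mul_mo', map_sum, Finset.sum_eq_single p] at h4
          · rw [map_smul, smul_eq_mul] at h4
            refine (mul_eq_zero.1 h4).resolve_left (S.a_ne ?_)
            rw [hc]
            exact Finset.mem_singleton_self c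
          · intro v _ hvp
            rw [map_smul, smul_eq_mul]
            by_cases hv : c ∈ S.car v
            · have h5 : (S.car v).card ≠ 1 := by
                intro h6
                obtain ⟨c', hc'⟩ := Finset.card_eq_one.1 h6
                rw [hc', Finset.mem_singleton] at hv
                rw [← hv] at hc'
                exact hvp (corner_unique hT hc' hc)
              rw [ih (cc S (Finsupp.single v 1 + s')) ?_ _ rfl (by rw [deg_single_add]; exact hs)
                (hP p v c s' hc hv hPs), mul_zero]
              rw [← hm, cc_add, cc_add, cc_single, cc_single, if_neg h5, if_pos hp1]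
              omega
            · rw [S.a_zero hv, zero_mul]
          · intro h
            exact absurd (Finset.mem_univ p) h
      · exact hface s hs h1
  exact fun s hs hPs => key _ s rfl hs hPs

end Pool.Agent.LH5
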