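import Pool.Agent.LH5.Bh
import Pool.Agent.LH4.Sym

/-!
# Injectivity in all degrees for two families of subdivisions
-/

set_option autoImplicit false

open Finset

namespace Pool.Agent.LH5

open Pool.Agent.LocH Pool.Agent.LH4

variable {X Ω : Type} [Fintype X] [DecidableEq X] [Fintype Ω] [DecidableEq Ω] {S : Sub X Ω}

/-- Theorem B. -/
theorem tj_four (hT : S.Top S.K) {A : Finset Ω} (hC : Cl S A) {i : ℕ}
    (hi : 2 * i + 2 ≤ A.card) : TJ S A i := by
  by_cases hi3 : i ≤ 3
  · exact TJ_le hT hi3 (by omega)
  refine tj_of (by omega) fun g hg => ?_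
  have key : ∀ e, Kx S A i g e := by
    intro e
    induction e with
    | zero => exact kx_zero (by omega) hg
    | succ e ihe =>
      intro m hm hmf hmc hE
      by_cases hE' : Ex S A e m
      · exact ihe m hm hmf hmc hE'
      · obtain ⟨Q, τ, N, hz, rfl, hNd, hNs⟩ := exists_zone hE hE'
        obtain ⟨hQ, hN, hτ⟩ := zone_data hz hmf hmc hNd
        have hUc : (A \ Q).card + Q.card = A.card := Finset.card_sdiff_add_card_eq_card hz.sub
        have hQd := hz.deg
        rw [map_add] at hm
        by_cases hsm : ∀ v, S.car v ⊆ A \ Q → (S.car v).card ≤ 2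
        · exact small_zone hT hg (by omega) ihe hz hQ (by omega) hN hNs hsm fun j hj =>
            tj_small hT _ (A \ Q) rfl (fun v w _ hw => Or.inl (hsm w hw)) j hj
        · push Not at hsm
          obtain ⟨z, hzU, hz2⟩ := hsm
          have h1 := (hC z (hzU.trans Finset.sdiff_subset)).resolve_left (by omega)
          have h2 := Finset.card_le_card hzU
          obtain ⟨v, hv, -⟩ := exists_three hz hQ
          obtain ⟨τ', rfl⟩ := exists_single_add' hv
          rw [deg_single_add] at hQd hm
          have h3 : τ' = 0 := (Finsupp.degree_eq_zero_iff _).1 (by omega)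
          subst h3
          rw [map_zero] at hQd hm
          rw [add_zero] at hz hQ hτ ⊢
          have hQv : Q ⊆ S.car v := by
            rw [Finsupp.support_single v one_ne_zero] at hQ
            unfold Sub.cr at hQ
            rwa [Finset.singleton_biUnion] at hQ
          have B : Bz S A Q i e g v := ⟨hT, hC, hi, by omega, by omega, hg, ihe, hz, hQv, by omega⟩
          exact B.concl (by omega) hN hNs
  exact key A.card

/-- The inequality from the injectivity. -/
theorem step_tj (hT : S.Top S.K) {A : Finset Ω} {i : ℕ} (hi : 2 * i < A.card)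
    (h : TJ S A i) : (S.ell A).coeff i ≤ (S.ell A).coeff (i + 1) :=
  S.step_of_inj hT (Sub.dim hT) hi h

/-- The inequalities when the carriers are corners or have codimension at most four. -/
theorem ell_four (hT : S.Top S.K) {A : Finset Ω} (hC : Cl S A) {i : ℕ} (hi : 2 * i < A.card) :
    (S.ell A).coeff i ≤ (S.ell A).coeff (i + 1) := by
  by_cases h : 2 * i + 1 = A.card
  · exact (ell_mid hT h).le
  · exact step_tj hT hi (tj_four hT hC (by omega))

/-- The inequalities when for two vertices one of the carriers has at most two elements or the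
other has at most two elements outside. -/
theorem ell_small (hT : S.Top S.K) {A : Finset Ω}
    (h : ∀ v w, S.car v ⊆ A → S.car w ⊆ A →
      (S.car w).card ≤ 2 ∨ (S.car v \ S.car w).card ≤ 2) {i : ℕ} (hi : 2 * i < A.card) :
    (S.ell A).coeff i ≤ (S.ell A).coeff (i + 1) :=
  step_tj hT hi (tj_small hT _ A rfl h i hi)

end Pool.Agent.LH5
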