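import Pool.Agent.LH5.Cr

/-!
# The excess of a product with two vertices outside the zone and one more factor in the zone
-/

set_option autoImplicit false

open Finset

namespace Pool.Agent.LH5

open Pool.Agent.LocH Pool.Agent.LH4

variable {X Ω : Type} [Fintype X] [DecidableEq X] [Fintype Ω] [DecidableEq Ω] {S : Sub X Ω}

/-- Every vertex over `A` is a corner or has a carrier of codimension at most four. -/
def Cl (S : Sub X Ω) (A : Finset Ω) : Prop :=
  ∀ v, S.car v ⊆ A → (S.car v).card = 1 ∨ A.card ≤ (S.car v).card + 4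

theorem one_le_dgC {C : Finset Ω} {n : X →₀ ℕ} {v : X} (hv : v ∈ n.support)
    (h : ¬ Disjoint (S.car v) C) : 1 ≤ S.dgC C n := by
  unfold Sub.dgC
  refine le_trans ?_ (Finset.single_le_sum (f := fun v => n v) (fun _ _ => Nat.zero_le _)
    (Finset.mem_filter.2 ⟨Finset.mem_univ v, h⟩))
  have := Finsupp.mem_support_iff.1 hv
  omega

theorem disj_card {U B C : Finset Ω} (h : Disjoint C B) (hC : C ⊆ U) (hB : B ⊆ U) :
    C.card + B.card ≤ U.card := by
  rw [← Finset.card_union_of_disjoint h]
  exact Finset.card_le_card (Finset.union_subset hC hB)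

theorem zf {A Q : Finset Ω} (hC : Cl S A) {i e : ℕ} (hi : 2 * i + 2 ≤ A.card) (hQA : Q ⊆ A)
    {v z1 z2 : X} (hQv : Q ⊆ S.car v) (hQ : Q.card = 3 + e)
    (hz1 : S.car z1 ⊆ A \ Q) (hz1' : (S.car z1).card ≠ 1)
    (hz2 : S.car z2 ⊆ A \ Q) (hz2' : (S.car z2).card ≠ 1) {r : X →₀ ℕ}
    (hr : ∀ w ∈ r.support, (S.car w).card ≠ 1)
    (hd : r.degree + 3 + i = A.card)
    (hf : (Finsupp.single v 1 + ((Finsupp.single z1 1 + Finsupp.single z2 1) + r)).support
      ∈ S.fcs A)
    (hcov : A \ Q ⊆ S.cr ((Finsupp.single z1 1 + Finsupp.single z2 1) + r).support)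
    (hw : ∃ w ∈ r.support, ¬ Disjoint (S.car w) Q) :
    Ex S A e (Finsupp.single v 1 + ((Finsupp.single z1 1 + Finsupp.single z2 1) + r)) := by
  set n : X →₀ ℕ := Finsupp.single v 1 + ((Finsupp.single z1 1 + Finsupp.single z2 1) + r) with hn
  have hsub : ∀ x ∈ n.support, S.car x ⊆ A := fun x hx =>
    (Finset.subset_biUnion_of_mem S.car hx).trans (mem_fcs'.1 hf).2
  have hsupp : n.support = insert v (insert z1 (insert z2 r.support)) := by
    rw [hn, supp_single_add, add_assoc, supp_single_add, supp_single_add]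
  have hrn : ∀ x ∈ r.support, x ∈ n.support := fun x hx => by
    rw [hsupp]
    exact Finset.mem_insert_of_mem (Finset.mem_insert_of_mem (Finset.mem_insert_of_mem hx))
  have hUc : (A \ Q).card + Q.card = A.card := Finset.card_sdiff_add_card_eq_card hQA
  have hvn : v ∈ n.support := by
    rw [hsupp]
    exact Finset.mem_insert_self _ _
  have hv1 : (S.car v).card ≠ 1 := by
    have := Finset.card_le_card hQv
    omega
  have hbig : ∀ x ∈ n.support, A.card ≤ (S.car x).card + 4 := by
    intro x hx
    refine (hC x (hsub x hx)).resolve_left ?_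
    rw [hsupp, Finset.mem_insert, Finset.mem_insert, Finset.mem_insert] at hx
    rcases hx with rfl | rfl | rfl | hx
    · exact hv1
    · exact hz1'
    · exact hz2'
    · exact hr x hx
  have hdeg : n.degree + i = A.card := by
    rw [hn, map_add, map_add, map_add, Finsupp.degree_single, Finsupp.degree_single,
      Finsupp.degree_single]
    omega
  have hz1n : z1 ∈ n.support := by
    rw [hsupp]
    exact Finset.mem_insert_of_mem (Finset.mem_insert_self _ _)
  have hz2n : z2 ∈ n.support := by
    rw [hsupp]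
    exact Finset.mem_insert_of_mem (Finset.mem_insert_of_mem (Finset.mem_insert_self _ _))
  have hb1 := hbig z1 hz1n
  have hb2 := hbig z2 hz2n
  intro B hB
  by_contra hlt
  push Not at hlt
  have hexp : S.dgC B n = S.dgC B (Finsupp.single v 1) + (S.dgC B (Finsupp.single z1 1) +
      S.dgC B (Finsupp.single z2 1) + S.dgC B r) := by
    rw [hn, dgC_add, dgC_add, dgC_add]
  by_cases h5 : 5 ≤ B.card
  · have h6 : S.dgC B n = n.degree := by
      refine dgC_eq_degree fun x hx h7 => ?_
      have h8 := disj_card h7 (hsub x hx) hB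
      have h9 := hbig x hx
      omega
    have h7 := Finset.card_le_card hB
    omega
  have hcovA : A ⊆ S.cr n.support := by
    rw [hn, cr_single_add]
    intro c hc
    by_cases h4 : c ∈ Q
    · exact Finset.mem_union_left _ (hQv h4)
    · exact Finset.mem_union_right _ (hcov (Finset.mem_sdiff.2 ⟨hc, h4⟩))
  have hp : 1 ≤ S.dgC B n := by
    have h6 : B.Nonempty := by
      rw [← Finset.card_pos]
      omega
    obtain ⟨c, hc⟩ := h6
    obtain ⟨x, hx, hcx⟩ := Finset.mem_biUnion.1 (hcovA (hB hc))
    exact one_le_dgC hx (Finset.not_disjoint_iff.2 ⟨c, hcx, hc⟩)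
  have hp1 : S.dgC B n = 1 := by omega
  -- a vertex `z` outside which meets `B`
  have hcase : ∀ z z' : X, S.car z ⊆ A \ Q → S.car z' ⊆ A \ Q → A.card ≤ (S.car z').card + 4 →
      ¬ Disjoint (S.car z) B → S.dgC B (Finsupp.single v 1) + (S.dgC B (Finsupp.single z 1) +
      S.dgC B (Finsupp.single z' 1)) ≤ 1 → False := by
    intro z z' _ hz' hbz' hzB hle
    rw [dgC_single hzB] at hle
    have h6 : Disjoint (S.car v) B := by
      by_contra h7
      rw [dgC_single h7] at hle
      omega
    have h7 : Disjoint (S.car z') B := by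
      by_contra h7
      rw [dgC_single h7] at hle
      omega
    have h8 : B ⊆ A \ Q := by
      refine Finset.subset_sdiff.2 ⟨hB, ?_⟩
      exact (h6.mono_left hQv).symm
    have h9 := disj_card h7 hz' h8
    omega
  by_cases hzB : Disjoint (S.car z1) B
  swap
  · exact hcase z1 z2 hz1 hz2 hb2 hzB (by omega)
  by_cases hzB' : Disjoint (S.car z2) B
  swap
  · exact hcase z2 z1 hz2 hz1 hb1 hzB' (by omega)
  have h6 : ¬ Disjoint (S.car v) B := by
    intro h7
    have h8 : B ⊆ A \ Q := Finset.subset_sdiff.2 ⟨hB, (h7.mono_left hQv).symm⟩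
    have h9 := disj_card hzB hz1 h8
    omega
  have h7 : S.dgC B r = 0 := by
    rw [dgC_single h6] at hexp
    omega
  have h8 : ∀ x ∈ ((Finsupp.single z1 1 + Finsupp.single z2 1) + r).support,
      Disjoint (S.car x) B := by
    intro x hx
    rw [add_assoc, supp_single_add, supp_single_add, Finset.mem_insert, Finset.mem_insert] at hx
    rcases hx with rfl | rfl | hx
    · exact hzB
    · exact hzB'
    · by_contra h9
      have := one_le_dgC hx h9
      omega
  have h9 : B ⊆ Q := by
    intro c hc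
    by_contra hcQ
    obtain ⟨x, hx, hcx⟩ := Finset.mem_biUnion.1 (hcov (Finset.mem_sdiff.2 ⟨hB hc, hcQ⟩))
    exact Finset.disjoint_left.1 (h8 x hx) hcx hc
  obtain ⟨w, hwr, hwQ⟩ := hw
  obtain ⟨c, hcw, hcQ⟩ := Finset.not_disjoint_iff.1 hwQ
  have h10 : B ⊆ Q.erase c := by
    refine Finset.subset_erase.2 ⟨h9, fun hcB => ?_⟩
    have h11 := one_le_dgC hwr (Finset.not_disjoint_iff.2 ⟨c, hcw, hcB⟩)
    omega
  have h11 := Finset.card_le_card h10
  rw [Finset.card_erase_of_mem hcQ] at h11
  omega

end Pool.Agent.LH5
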