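import Pool.Agent.LH4.Vgf2

/-!
# Monomials with small excess, zones, and the restriction of a form to the complement of a zone
-/

set_option autoImplicit false

open Finset

namespace Pool.Agent.LH5

open Pool.Agent.LocH Pool.Agent.LH4

variable {X Ω : Type} [Fintype X] [DecidableEq X] [Fintype Ω] [DecidableEq Ω] {S : Sub X Ω}

/-! ### The degree in the vertices which meet a set -/

theorem dgC_add (C : Finset Ω) (n m : X →₀ ℕ) : S.dgC C (n + m) = S.dgC C n + S.dgC C m := by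
  unfold Sub.dgC
  rw [← Finset.sum_add_distrib]
  rfl

theorem dgC_mono {C C' : Finset Ω} (h : C ⊆ C') (n : X →₀ ℕ) : S.dgC C n ≤ S.dgC C' n := by
  unfold Sub.dgC
  refine Finset.sum_le_sum_of_subset fun v hv => ?_
  rw [Finset.mem_filter] at hv ⊢
  exact ⟨hv.1, fun h1 => hv.2 (h1.mono_right h)⟩

theorem dgC_single {C : Finset Ω} {v : X} (h : ¬ Disjoint (S.car v) C) :
    S.dgC C (Finsupp.single v 1) = 1 := by
  unfold Sub.dgC
  simp only [Finsupp.single_apply]
  rw [Finset.sum_ite_eq, if_pos]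
  exact Finset.mem_filter.2 ⟨Finset.mem_univ _, h⟩

theorem dgC_zero {C : Finset Ω} {n : X →₀ ℕ} (h : ∀ v ∈ n.support, Disjoint (S.car v) C) :
    S.dgC C n = 0 := by
  unfold Sub.dgC
  refine Finset.sum_eq_zero fun v hv => ?_
  by_contra h1
  exact (Finset.mem_filter.1 hv).2 (h v (Finsupp.mem_support_iff.2 h1))

theorem dgC_le_degree (C : Finset Ω) (n : X →₀ ℕ) : S.dgC C n ≤ n.degree := by
  unfold Sub.dgC
  rw [Finsupp.degree_eq_sum]
  exact Finset.sum_le_sum_of_subset (Finset.filter_subset _ _)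

theorem dgC_eq_degree {C : Finset Ω} {n : X →₀ ℕ} (h : ∀ v ∈ n.support, ¬ Disjoint (S.car v) C) :
    S.dgC C n = n.degree := by
  unfold Sub.dgC
  rw [Finsupp.degree_eq_sum]
  refine Finset.sum_subset (Finset.filter_subset _ _) fun v _ hv => ?_
  by_contra h1
  exact hv (Finset.mem_filter.2 ⟨Finset.mem_univ _, h v (Finsupp.mem_support_iff.2 h1)⟩)

/-! ### The excess -/

/-- The excess of `n` at all subsets of `A` is at most `e`. -/
def Ex (S : Sub X Ω) (A : Finset Ω) (e : ℕ) (n : X →₀ ℕ) : Prop :=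
  ∀ Q ⊆ A, Q.card ≤ 2 * S.dgC Q n + e

theorem Ex.good {A : Finset Ω} {n : X →₀ ℕ} (h : Ex S A 0 n) : S.Good A n := h

theorem ex_card (A : Finset Ω) (n : X →₀ ℕ) : Ex S A A.card n := fun Q hQ => by
  have := Finset.card_le_card hQ
  omega

/-- The set `Q` is a zone of excess `e + 1` with the factors `τ`. -/
structure Zone (S : Sub X Ω) (A Q : Finset Ω) (e : ℕ) (τ : X →₀ ℕ) : Prop where
  sub : Q ⊆ A
  card : Q.card = 2 * S.dgC Q τ + (e + 1)
  min : ∀ B ⊆ Q, B ≠ Q → B.card ≤ 2 * S.dgC B τ + e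
  meet : ∀ v ∈ τ.support, ¬ Disjoint (S.car v) Q

theorem Zone.deg {A Q : Finset Ω} {e : ℕ} {τ : X →₀ ℕ} (h : Zone S A Q e τ) :
    Q.card = 2 * τ.degree + (e + 1) := by
  rw [h.card, dgC_eq_degree h.meet]

theorem exists_zone {A : Finset Ω} {e : ℕ} {n : X →₀ ℕ} (h : Ex S A (e + 1) n)
    (h' : ¬ Ex S A e n) : ∃ (Q : Finset Ω) (τ N : X →₀ ℕ), Zone S A Q e τ ∧ n = τ + N ∧
      (∀ v ∈ N.support, Disjoint (S.car v) Q) ∧ ∀ B ⊆ A \ Q, B.card ≤ 2 * S.dgC B N := by
  classical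
  set P : Finset (Finset Ω) := A.powerset.filter fun Q => 2 * S.dgC Q n + e < Q.card with hP
  have hne : P.Nonempty := by
    unfold Ex at h'
    push Not at h'
    obtain ⟨Q, h1, h2⟩ := h'
    exact ⟨Q, Finset.mem_filter.2 ⟨Finset.mem_powerset.2 h1, h2⟩⟩
  obtain ⟨Q, hQP, hmin⟩ := Finset.exists_min_image P Finset.card hne
  obtain ⟨hQ1, hQ2⟩ := Finset.mem_filter.1 hQP
  have hQA : Q ⊆ A := Finset.mem_powerset.1 hQ1
  set τ : X →₀ ℕ := n.filter fun v => ¬ Disjoint (S.car v) Q with hτ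
  set N : X →₀ ℕ := n.filter fun v => ¬ ¬ Disjoint (S.car v) Q with hN
  have hn : n = τ + N := (Finsupp.filter_add_filter_not n _).symm
  have hNd : ∀ v ∈ N.support, Disjoint (S.car v) Q := by
    intro v hv
    rw [hN, Finsupp.support_filter, Finset.mem_filter, not_not] at hv
    exact hv.2
  have hB : ∀ B ⊆ Q, S.dgC B n = S.dgC B τ := by
    intro B hBQ
    rw [hn, dgC_add, dgC_zero fun v hv => (hNd v hv).mono_right hBQ, add_zero]
  have hcard : Q.card = 2 * S.dgC Q τ + (e + 1) := by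
    have h1 := h Q hQA
    rw [← hB Q (Finset.Subset.refl _)]
    omega
  have hmeet : ∀ v ∈ τ.support, ¬ Disjoint (S.car v) Q := by
    intro v hv
    rw [hτ, Finsupp.support_filter, Finset.mem_filter] at hv
    exact hv.2
  refine ⟨Q, τ, N, ⟨hQA, hcard, ?_, hmeet⟩, hn, hNd, fun B hBU => ?_⟩
  · intro B hBQ hne'
    by_contra hlt
    rw [← hB B hBQ] at hlt
    have h1 : B ∈ P := Finset.mem_filter.2 ⟨Finset.mem_powerset.2 (hBQ.trans hQA), by omega⟩
    exact hne' (Finset.eq_of_subset_of_card_le hBQ (hmin B h1))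
  · have h1 := h (Q ∪ B) (Finset.union_subset hQA (hBU.trans Finset.sdiff_subset))
    have h2 : Disjoint Q B := (Finset.disjoint_sdiff).mono_right hBU
    rw [Finset.card_union_of_disjoint h2, hn, dgC_add,
      dgC_eq_degree fun v hv h3 => hmeet v hv (h3.mono_right Finset.subset_union_left)] at h1
    have h4 : S.dgC (Q ∪ B) N = S.dgC B N := by
      unfold Sub.dgC
      rw [Finset.sum_filter, Finset.sum_filter]
      refine Finset.sum_congr rfl fun v _ => ?_
      by_cases h5 : N v = 0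
      · rw [h5, ite_self, ite_self]
      · have h6 := hNd v (Finsupp.mem_support_iff.2 h5)
        by_cases h7 : Disjoint (S.car v) B
        · rw [if_neg (not_not.2 h7), if_neg (not_not.2 (Finset.disjoint_union_right.2 ⟨h6, h7⟩))]
        · rw [if_pos h7, if_pos fun h8 => h7 (Finset.disjoint_union_right.1 h8).2]
    rw [dgC_eq_degree hmeet] at hcard
    omega

/-- One factor which meets the zone kills the excess. -/
theorem Zone.flux {A Q : Finset Ω} {e : ℕ} {τ : X →₀ ℕ} (hz : Zone S A Q e τ) {u : X}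
    (hu : ¬ Disjoint (S.car u) Q) {M : X →₀ ℕ}
    (h1 : ∀ B ⊆ A \ Q, B.card ≤ 2 * S.dgC B (Finsupp.single u 1 + M))
    (h2 : ∀ B ⊆ A \ Q, B.card ≤ 2 * S.dgC B M + 1) :
    Ex S A e (τ + (Finsupp.single u 1 + M)) := by
  intro B hB
  have hB1 : B ∩ Q ⊆ Q := Finset.inter_subset_right
  have hB2 : B \ Q ⊆ A \ Q := Finset.sdiff_subset_sdiff hB (Finset.Subset.refl _)
  have hc : (B ∩ Q).card + (B \ Q).card = B.card := Finset.card_inter_add_card_sdiff B Q
  rw [dgC_add]
  by_cases hBQ : B ∩ Q = Q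
  · have hQB : Q ⊆ B := by
      rw [← hBQ]
      exact Finset.inter_subset_left
    have h3 := hz.card
    have h4 := dgC_mono (S := S) hQB τ
    have h5 : S.dgC B (Finsupp.single u 1 + M) = 1 + S.dgC B M := by
      rw [dgC_add, dgC_single fun h => hu (h.mono_right hQB)]
    have h6 := dgC_mono (S := S) (Finset.sdiff_subset : B \ Q ⊆ B) M
    have h7 := h2 _ hB2
    rw [hBQ] at hc
    omega
  · have h3 := hz.min _ hB1 hBQ
    have h4 := dgC_mono (S := S) (Finset.inter_subset_left : B ∩ Q ⊆ B) τ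
    have h6 := dgC_mono (S := S) (Finset.sdiff_subset : B \ Q ⊆ B) (Finsupp.single u 1 + M)
    have h7 := h1 _ hB2
    omega

/-! ### Forms restricted to `U` -/

/-- A relation for the restricted form. -/
theorem rs_th {A U : Finset Ω} {f : S.T →ₗ[S.K] S.K} {c : Ω} {s : X →₀ ℕ}
    (hface : ∀ t : X →₀ ℕ, t.degree = s.degree + 1 → t.support ∉ S.fcs A → f (S.mo t) = 0)
    (hth : f (S.th c * S.mo s) = 0) (hs : s.support ∈ S.fcs U)
    (hd : ∀ v, c ∈ S.car v → ¬ S.car v ⊆ U → (Finsupp.single v 1 + s).support ∈ S.fcs A →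
      f (S.mo (Finsupp.single v 1 + s)) = 0) : rs S U f (S.th c * S.mo s) = 0 := by
  rw [th_mul_mo', map_sum] at hth ⊢
  rw [← hth]
  refine Finset.sum_congr rfl fun v _ => ?_
  rw [map_smul, map_smul]
  by_cases hv : c ∈ S.car v
  · rw [rs_mo_eq]
    intro h4
    by_cases h5 : (Finsupp.single v 1 + s).support ∈ S.fcs A
    · refine hd v hv (fun h6 => h4 ?_) h5
      refine mem_fcs'.2 ⟨(mem_fcs'.1 h5).1, ?_⟩
      rw [supp_single_add, cr_insert]
      exact Finset.union_subset h6 (mem_fcs'.1 hs).2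
    · exact hface _ (deg_single_add v s) h5
  · rw [S.a_zero hv, zero_smul, zero_smul]

/-- The product with `λ` for the restricted form. -/
theorem rs_lam {A U : Finset Ω} (hU : U ⊆ A) {f : S.T →ₗ[S.K] S.K} {s : X →₀ ℕ}
    (hface : ∀ t : X →₀ ℕ, t.degree = s.degree + 1 → t.support ∉ S.fcs A → f (S.mo t) = 0)
    (hlam : f (S.lam A * S.mo s) = 0) (hs : s.support ∈ S.fcs U)
    (hd : ∀ v, ¬ S.car v ⊆ U → (Finsupp.single v 1 + s).support ∈ S.fcs A →
      f (S.mo (Finsupp.single v 1 + s)) = 0) : rs S U f (S.lam U * S.mo s) = 0 := by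
  rw [lam_mul_mo, map_sum] at hlam ⊢
  rw [← hlam]
  have h12 : univ.filter (fun v => S.car v ⊆ U) ⊆ univ.filter (fun v => S.car v ⊆ A) := by
    intro v hv
    rw [Finset.mem_filter] at hv ⊢
    exact ⟨hv.1, hv.2.trans hU⟩
  refine Eq.trans (Finset.sum_congr rfl fun v hv => ?_)
    (Finset.sum_subset h12 fun v hv hvU => ?_)
  · have hv' := (Finset.mem_filter.1 hv).2
    rw [rs_mo_eq]
    intro h4
    refine hface _ (deg_single_add v s) fun h5 => h4 ?_
    refine mem_fcs'.2 ⟨(mem_fcs'.1 h5).1, ?_⟩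
    rw [supp_single_add, cr_insert]
    exact Finset.union_subset hv' (mem_fcs'.1 hs).2
  · have hv' : ¬ S.car v ⊆ U := fun h => hvU (Finset.mem_filter.2 ⟨Finset.mem_univ _, h⟩)
    by_cases h5 : (Finsupp.single v 1 + s).support ∈ S.fcs A
    · exact hd v hv' h5
    · exact hface _ (deg_single_add v s) h5

/-- A vertex of a face over `A` which is not over `A \ Q` meets `Q`. -/
theorem meet_of {A Q : Finset Ω} {v : X} {s : X →₀ ℕ} (h : ¬ S.car v ⊆ A \ Q)
    (h' : (Finsupp.single v 1 + s).support ∈ S.fcs A) : ¬ Disjoint (S.car v) Q := by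
  intro h1
  refine h (Finset.subset_sdiff.2 ⟨?_, h1⟩)
  have h2 := (mem_fcs'.1 h').2
  rw [supp_single_add, cr_insert] at h2
  exact Finset.subset_union_left.trans h2

/-! ### The form given by an element of the kernel -/

/-- `g` is an element of degree `i` of the interior ideal and `λ g` is orthogonal to everything. -/
structure Ker (S : Sub X Ω) (A : Finset Ω) (i : ℕ) (g : S.T) : Prop where
  J : g ∈ S.J A A
  H : g ∈ S.H i
  lam : S.lam A * g ∈ S.N A (i + 1)

/-- The trace of the multiples of `g` and the monomial of `τ`. -/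
noncomputable def tt (S : Sub X Ω) (A : Finset Ω) (g : S.T) (τ : X →₀ ℕ) : S.T →ₗ[S.K] S.K :=
  S.Tr A ∘ₗ LinearMap.mulLeft S.K (g * S.mo τ)

theorem tt_apply (A : Finset Ω) (g : S.T) (τ : X →₀ ℕ) (y : S.T) :
    tt S A g τ y = S.Tr A (g * S.mo τ * y) := rfl

theorem mo_mul (s t : X →₀ ℕ) : S.mo s * S.mo t = S.mo (s + t) := by
  unfold Sub.mo
  rw [MvPolynomial.monomial_mul, mul_one]

theorem tt_mo (A : Finset Ω) (g : S.T) (τ s : X →₀ ℕ) :
    tt S A g τ (S.mo s) = S.Tr A (g * S.mo (τ + s)) := by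
  rw [tt_apply, mul_assoc, mo_mul]

theorem not_fcs_add {A : Finset Ω} {τ s : X →₀ ℕ} (h : s.support ∉ S.fcs A) :
    (τ + s).support ∉ S.fcs A := by
  intro h1
  refine h ?_
  have h2 : s.support ⊆ (τ + s).support := by
    intro v hv
    rw [Finsupp.mem_support_iff] at hv ⊢
    rw [Finsupp.add_apply]
    omega
  exact mem_fcs'.2 ⟨S.down _ (mem_fcs'.1 h1).1 _ h2,
    (Finset.biUnion_subset_biUnion_of_subset_left _ h2).trans (mem_fcs'.1 h1).2⟩

theorem tt_face (A : Finset Ω) (g : S.T) (τ : X →₀ ℕ) {s : X →₀ ℕ} (h : s.support ∉ S.fcs A) :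
    tt S A g τ (S.mo s) = 0 := by
  rw [tt_mo]
  exact S.Tr_I (S.mul_I (mo_I (not_fcs_add h)) g)

theorem tt_th (hT : S.Top S.K) {A : Finset Ω} {i : ℕ} {g : S.T} (hg : Ker S A i g)
    {τ s : X →₀ ℕ} (hd : i + τ.degree + s.degree < A.card) {c : Ω} (hc : c ∈ A) :
    tt S A g τ (S.th c * S.mo s) = 0 := by
  rw [tt_apply, show g * S.mo τ * (S.th c * S.mo s) = S.th c * (S.mo (τ + s) * g) by
    rw [← mo_mul]; ring, S.Tr_th hc, S.res hT (S.mul_J hg.J _)
    (S.mul_H (mo_H (τ + s)) hg.H) (by rw [map_add]; omega), mul_zero]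

theorem tt_lam {A : Finset Ω} {i : ℕ} {g : S.T} (hg : Ker S A i g) {τ s : X →₀ ℕ}
    (hd : i + τ.degree + s.degree + 1 = A.card)
    (hs : (τ + s).support ∈ S.fcs A → A ⊆ S.cr (τ + s).support) :
    tt S A g τ (S.lam A * S.mo s) = 0 := by
  rw [tt_apply, show g * S.mo τ * (S.lam A * S.mo s) = S.lam A * g * S.mo (τ + s) by
    rw [← mo_mul]; ring]
  refine hg.lam.2.2 _ (mo_J hs) ?_
  have h1 : (τ + s).degree = A.card - (i + 1) := by
    rw [map_add]
    omega
  exact h1 ▸ mo_H (τ + s)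

/-- The form kills the interior monomials of excess at most `e`. -/
def Kx (S : Sub X Ω) (A : Finset Ω) (i : ℕ) (g : S.T) (e : ℕ) : Prop :=
  ∀ n : X →₀ ℕ, n.degree + i = A.card → n.support ∈ S.fcs A → A ⊆ S.cr n.support →
    Ex S A e n → S.Tr A (g * S.mo n) = 0

theorem kx_zero {A : Finset Ω} {i : ℕ} (hi : 2 * i < A.card) {g : S.T} (hg : Ker S A i g) :
    Kx S A i g 0 := by
  intro n hn _ _ hE
  exact S.an hi hg.J hg.H hg.lam hE.good (by omega)

/-- Injectivity from the vanishing at all interior monomials. -/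
theorem tj_of {A : Finset Ω} {i : ℕ} (hi : i ≤ A.card)
    (h : ∀ g, Ker S A i g → Kx S A i g A.card) : TJ S A i := by
  intro g hg hg' hl
  have h1 := h g ⟨hg, hg', hl⟩
  refine ⟨hg, hg', fun y hy hy' => ?_⟩
  refine form_mul_zero (F := S.Tr A) g fun s hs => ?_
  have h2 := deg_of_H hy' hs
  by_cases h3 : s.support ∈ S.fcs A
  · exact h1 s (by omega) h3 (S.mem_J.1 hy s hs h3) (ex_card A s)
  · exact S.Tr_I (S.mul_I (mo_I h3) g)

end Pool.Agent.LH5
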